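import Pool.Agent.Helper31_Con.Defs
import Mathlib.Computability.Partrec

/-!
# Definitions for the equivalent forms of the negative answer above some base
-/

namespace Helper31Con.H40

open Fm

/-- All members of the list are sentences. -/
def Sents (A : List Fm) : Prop := ∀ φ ∈ A, Sentence φ

/-- All members of the list are true sentences. -/
def AllTrue (A : List Fm) : Prop := ∀ φ ∈ A, TrueS φ

/-- `A` proves no contradiction. -/
def Consis (A : List Fm) : Prop := ∀ k, ¬ Prov A k .bot

/-- `A` proves every member of `B`. -/
def Proves (A B : List Fm) : Prop := ∀ φ ∈ B, ∃ k, Prov A k φ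

/-- For some `c` and all `n`, `A` proves `Con_T(n)` with at most `n ^ c + c` symbols. -/
def Short (con : Fm) (A T : List Fm) : Prop := ∃ c : ℕ, ∀ n, Prov A (n ^ c + c) (conN con T n)

end Helper31Con.H40
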