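import Pool.Agent.Helper40_H.Rep
import Pool.Agent.Helper40_H.Defs

/-!
# The negative answer for all sufficiently strong theories and effective non-optimality
-/

namespace Helper31Con.H40

open Function Filter Fm Amp H5

/-- `A + Con_A`. -/
def PlusCon (con : Fm) (A : List Fm) : List Fm := conS con A :: A

/-- `S + θ(S)`, where `θ(S)` is `θ` with the numeral of the code of `S` for `x_0`. -/
def PlusOp (θ : Fm) (S : List Fm) : List Fm := θ.sub 0 (.num (lc S)) :: S

/-- Some consistent finite `A` that proves `B` has polynomial proofs of `Con_{A + Con_A}(n)`. -/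
def PosC (con : Fm) (B : List Fm) : Prop :=
  ∃ A, Sents A ∧ Consis A ∧ Proves A B ∧ Short con A (PlusCon con A)

/-- The same for a finite set of true sentences that includes `B`. -/
def PosT (con : Fm) (B : List Fm) : Prop :=
  ∃ A, AllTrue A ∧ (∀ φ ∈ B, φ ∈ A) ∧ Short con A (PlusCon con A)

/-- Some consistent finite `X` that proves `B` has polynomial proofs of `Con_{B + Con_X}(n)`. -/
def PosX (con : Fm) (B : List Fm) : Prop :=
  ∃ X, Sents X ∧ Consis X ∧ Proves X B ∧ Short con X (conS con X :: B)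

/-- Some finite set of true sentences is contained in (is provable in) no consistent theory at which
Q1 has a positive answer. -/
def NegC (con : Fm) : Prop := ∃ B : List Fm, (∀ φ ∈ B, TrueS φ) ∧
  ∀ A : List Fm, (∀ φ ∈ A, Sentence φ) → (∀ k, ¬ Prov A k .bot) → (∀ φ ∈ B, ∃ k, Prov A k φ) →
    ¬ Short con A (conS con A :: A)

/-- The same for finite sets of true sentences. -/
def NegT (con : Fm) : Prop := ∃ B : List Fm, (∀ φ ∈ B, TrueS φ) ∧
  ∀ A : List Fm, (∀ φ ∈ A, TrueS φ) → (∀ φ ∈ B, φ ∈ A) → ¬ Short con A (conS con A :: A)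

/-- The same for some operator given by a formula. -/
def NegR (con : Fm) : Prop := ∃ (θ : Fm) (B : List Fm), (∀ φ ∈ B, TrueS φ) ∧
  (∀ S : List Fm, (∀ φ ∈ S, TrueS φ) → TrueS (θ.sub 0 (.num (lc S)))) ∧
  ∀ S : List Fm, (∀ φ ∈ S, TrueS φ) → (∀ φ ∈ B, φ ∈ S) →
    ¬ Short con S (θ.sub 0 (.num (lc S)) :: S)

/-- Effective non-optimality. -/
def NegF (con : Fm) : Prop := ∃ (f : ℕ → ℕ) (B : List Fm), Computable f ∧ (∀ φ ∈ B, TrueS φ) ∧
  ∀ S : List Fm, (∀ φ ∈ S, TrueS φ) → (∀ φ ∈ B, φ ∈ S) →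
    ∃ U : List Fm, f (lc S) = lc U ∧ (∀ φ ∈ U, Sentence φ) ∧ (∀ k, ¬ Prov U k .bot) ∧
      ¬ Short con S U

/-- Polynomial completeness. -/
def PscStmt (con : Fm) : Prop := ∃ B₁ : List Fm, (∀ φ ∈ B₁, TrueS φ) ∧
  ∀ A T U : List Fm, (∀ φ ∈ B₁, φ ∈ A) → (∀ φ ∈ T, Sentence φ) → (∀ φ ∈ U, Sentence φ) →
    (∀ φ ∈ B₁, ∃ k, Prov T k φ) → (∃ k, Prov T k (conS con U)) →
    ∃ c d, ∀ n k, Prov A k (conN con T ((n + c) ^ c)) → Prov A ((n + k + d) ^ d) (conN con U n)

lemma Short.of_le {con : Fm} {A T : List Fm} {f : ℕ → ℕ} (hf : PB f)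
    (h : ∀ n, Prov A (f n) (conN con T n)) : Short con A T := by
  obtain ⟨c, hc⟩ := pb_le hf
  exact ⟨c, fun n => (h n).mono (hc n)⟩

lemma Short.monoT {con : Fm} {A A' T : List Fm} (h : Short con A T) (hA : ∀ φ ∈ A, φ ∈ A') :
    Short con A' T := by
  obtain ⟨c, hc⟩ := h
  refine ⟨c, fun n => ?_⟩
  obtain ⟨L, h1, h2⟩ := hc n
  exact ⟨L, h1.mono hA, h2⟩

/-! ### The simple implications -/

lemma true_consistent {A : List Fm} (hA : ∀ φ ∈ A, TrueS φ) (k : ℕ) : ¬ Prov A k .bot :=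
  fun h => h.sound (fun φ hφ => (hA φ hφ).2) fun _ => 0

lemma true_conS {con : Fm} (hcon : IsCon con) {A : List Fm} (hA : ∀ φ ∈ A, TrueS φ) :
    TrueS (conS con A) :=
  ⟨hcon.conS_sentence A, fun e => (hcon.conS_sat (fun φ hφ => (hA φ hφ).1) e).mpr
    (true_consistent hA)⟩

lemma negT_of_negC {con : Fm} (h : NegC con) : NegT con := by
  obtain ⟨B, hB, h⟩ := h
  exact ⟨B, hB, fun A hA hBA => h A (fun φ hφ => (hA φ hφ).1) (true_consistent hA)
    fun φ hφ => pv_iff.mp (Pv.mem (hBA φ hφ))⟩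

lemma negR_of_negT {con : Fm} (hcon : IsCon con) (h : NegT con) : NegR con := by
  obtain ⟨B, hB, h⟩ := h
  exact ⟨all 1 con, B, hB, fun S hS => true_conS hcon hS, h⟩

lemma negC_of_negR {con : Fm} (hcon : IsCon con) (h : NegR con) : NegC con := by
  obtain ⟨θ, B, hB, hθ, h⟩ := h
  obtain ⟨B₀, B₁, h0, h1, h2, h3, h4⟩ := Amp.main hcon hθ hB
  refine ⟨B₀, h0, fun A hA hAc hAB hS => ?_⟩
  obtain ⟨c', hc'⟩ := hS
  have hT : ∀ φ ∈ conS con A :: B₀, ∃ k, Prov (conS con A :: A) k φ := by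
    intro φ hφ
    rcases List.mem_cons.mp hφ with rfl | hφ
    · exact pv_iff.mp (Pv.mem List.mem_cons_self)
    · exact pv_iff.mp (Pv.cons (pv_iff.mpr (hAB φ hφ)))
  obtain ⟨h5, c, h6⟩ := h4 A (conS con A :: A) hA (fun φ hφ => by
    rcases List.mem_cons.mp hφ with rfl | hφ
    · exact hcon.conS_sentence A
    · exact hA φ hφ) hAc hAB hT
  refine h _ h5 (fun φ hφ => List.mem_cons_of_mem _ (h2 φ hφ)) ?_
  have hP : PB (fun n => (n + ((n + c) ^ c' + c') + c) ^ c) :=
    PB.pow ((PB.id.add ((PB.pow (PB.id.add (PB.const c)) c').add (PB.const c'))).add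
      (PB.const c)) c
  exact Short.of_le hP fun n => h6 n _ (hc' (n + c))

/-! ### Computability -/

lemma primrec_nd {f g : ℕ → ℕ} (hf : Primrec f) (hg : Primrec g) :
    Primrec fun n => nd (f n) (g n) := by
  have h : Primrec fun n => (f n + g n) * (f n + g n) + f n + 1 :=
    Primrec.nat_add.comp (Primrec.nat_add.comp (Primrec.nat_mul.comp (Primrec.nat_add.comp hf hg)
      (Primrec.nat_add.comp hf hg)) hf) (Primrec.const 1)
  exact h.of_eq fun n => (nd_def _ _).symm

lemma primrec_tcnum : Primrec fun n => tc (Tm.num n) := by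
  have h := Primrec.nat_rec₁ (α := ℕ) (nd 1 0) (f := fun _ y => nd 2 y)
    ((primrec_nd (Primrec.const 2) Primrec.id).comp Primrec.snd).to₂
  refine h.of_eq fun n => ?_
  induction n with
  | zero => rfl
  | succ n ih => show nd 2 _ = nd 2 _; rw [ih]

lemma primrec_tc (t : Tm) : Primrec fun n => tc (t.sub 0 (Tm.num n)) := by
  induction t with
  | var j =>
    by_cases h : j = 0
    · subst h; exact primrec_tcnum
    · simp only [Tm.sub, if_neg h]; exact Primrec.const _
  | zero => exact Primrec.const _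
  | succ t ih => exact primrec_nd (Primrec.const 2) ih
  | add t s iht ihs => exact primrec_nd (Primrec.const 3) (primrec_nd iht ihs)
  | mul t s iht ihs => exact primrec_nd (Primrec.const 4) (primrec_nd iht ihs)

lemma primrec_fc (φ : Fm) : Primrec fun n => fc (φ.sub 0 (Tm.num n)) := by
  induction φ with
  | bot => exact Primrec.const _
  | eq t s => exact primrec_nd (Primrec.const 6) (primrec_nd (primrec_tc t) (primrec_tc s))
  | le t s => exact primrec_nd (Primrec.const 7) (primrec_nd (primrec_tc t) (primrec_tc s))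
  | imp φ ψ ih1 ih2 => exact primrec_nd (Primrec.const 8) (primrec_nd ih1 ih2)
  | all j φ ih =>
    by_cases h : j = 0
    · simp only [Fm.sub, if_pos h]; exact Primrec.const _
    · simp only [Fm.sub, if_neg h]
      exact primrec_nd (Primrec.const 9) (primrec_nd (Primrec.const j) ih)

/-- The number of `S + Con_S`. -/
def fcon (con : Fm) (s : ℕ) : ℕ := nd (nd 9 (nd 1 (fc (con.sub 0 (Tm.num s))))) s

lemma fcon_lc (con : Fm) (S : List Fm) : fcon con (lc S) = lc (conS con S :: S) := rfl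

lemma computable_fcon (con : Fm) : Computable (fcon con) :=
  (primrec_nd (primrec_nd (Primrec.const 9) (primrec_nd (Primrec.const 1) (primrec_fc con)))
    Primrec.id).to_comp

lemma negF_of_negT {con : Fm} (hcon : IsCon con) (h : NegT con) : NegF con := by
  obtain ⟨B, hB, h⟩ := h
  refine ⟨fcon con, B, computable_fcon con, hB, fun S hS hBS => ?_⟩
  have hT : ∀ φ ∈ conS con S :: S, TrueS φ := by
    intro φ hφ
    rcases List.mem_cons.mp hφ with rfl | hφ
    · exact true_conS hcon hS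
    · exact hS φ hφ
  exact ⟨conS con S :: S, fcon_lc con S, fun φ hφ => (hT φ hφ).1, true_consistent hT, h S hS hBS⟩

/-- The number of `B ++ S`. -/
def ap (B : List Fm) (s : ℕ) : ℕ := B.foldr (fun β y => nd (fc β) y) s

lemma ap_lc (B S : List Fm) : ap B (lc S) = lc (B ++ S) := by
  induction B with
  | nil => rfl
  | cons β B ih => show nd (fc β) (ap B (lc S)) = nd (fc β) (lc (B ++ S)); rw [ih]

lemma primrec_ap (B : List Fm) : Primrec (ap B) := by
  induction B with
  | nil => exact Primrec.id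
  | cons β B ih => exact primrec_nd (Primrec.const _) ih

/-! ### The formula given by a computable function -/

lemma d4_cP {con : Fm} (hcon : IsCon con) : D4 fun a n _ _ => cP con a n :=
  ⟨con, fun e => hcon.cP_iff e⟩

lemma exists_theta {con : Fm} (hcon : IsCon con) {f : ℕ → ℕ} (hf : Rep2 fun a b => b = f a) :
    ∃ θ : Fm, (∀ k, θ.Free k → k = 0) ∧ (∀ e, θ.Sat e ↔ ∀ n, cP con (f (e 0)) n) ∧
      ∀ᶠ B in rich, ∀ (s : ℕ) (U : List Fm), f s = lc U → Pv B (θ.sub 0 (.num s)) →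
        Pv B (conS con U) := by
  have hd : Dfn (fun e => ∀ n, cP con (f (e 0)) n) := by
    refine (((hf.1.app (x 0) (x 4) .zero .zero).imp (((d4_cP hcon).app (x 4) (x 5) .zero
      .zero).all 5)).all 4).congr fun e => ?_
    simp (disch := decide) only [Tm.val, update_self, update_of_ne, forall_eq]
  obtain ⟨θ, h1, h2, -⟩ := exists_delta (D := fun s => ∀ n, cP con (f s) n) hd
  refine ⟨θ, h2, h1, ?_⟩
  obtain ⟨I⟩ := exists_ifaceA (θ := bot) hcon (fun k hk => absurd hk (fun h => h))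
  obtain ⟨J⟩ := fam_iface [fun a b _ _ => b = f a] (by
    simp only [List.mem_cons, List.not_mem_nil, or_false]
    rintro R rfl
    exact hf.1)
  have k0 : Kn J 0 := RepR.kn J hf
  have r := hornP [θ, J.V 0 0 1 2 3] (I.A 22 (x 1) o o o) (fun e h => by
    have g0 := (h1 e).mp (h _ List.mem_cons_self)
    have g1 := (Iface.sv J (by decide) (by decide) (by decide) (by decide) e).mp
      (h _ (List.mem_cons_of_mem _ List.mem_cons_self))
    have g1' : e 1 = f (e 0) := g1
    rw [I.sat _ _ _ _ _ _ (by simp [Al]) (by simp) (by simp) (by simp)]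
    show ∀ n, cP con (e 1) n
    rw [g1']
    exact g0)
  filter_upwards [k0, r, X81.con_fact I hcon] with B k0 r hcf s U hU hp
  rw [hcf U, ← hU]
  have key := r (as [s, f s]) (as_bdd _) (by
    intro α hα
    simp only [List.mem_cons, List.not_mem_nil, or_false] at hα
    rcases hα with rfl | rfl
    · rw [sub_one_eq h2 s _ rfl]; exact hp
    · rw [Iface.cv J (by decide) (by decide) (by decide) (by decide)]
      exact k0 _ _ _ _ rfl)
  rw [I.cl _ _ _ _ _ _ (by simp [Al]) (by simp) (by simp) (by simp)] at key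
  exact key

lemma negR_of_negF {con : Fm} (hcon : IsCon con) (hpsc : PscStmt con) (h : NegF con) :
    NegR con := by
  obtain ⟨f, B, hf, hB, h⟩ := h
  obtain ⟨B₁, hB₁, hpsc⟩ := hpsc
  have hf' : Computable fun s => f (ap B s) := hf.comp (primrec_ap B).to_comp
  obtain ⟨θ, t1, t2, t3⟩ := exists_theta hcon (rep_computable hf')
  obtain ⟨B₂, hB₂, t3⟩ := rich_iff.mp t3
  have hBS : ∀ {S : List Fm}, (∀ φ ∈ S, TrueS φ) → ∀ φ ∈ B ++ S, TrueS φ := fun hS φ hφ => by
    rcases List.mem_append.mp hφ with hφ | hφ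
    · exact hB φ hφ
    · exact hS φ hφ
  refine ⟨θ, B ++ (B₁ ++ B₂), ?_, ?_, ?_⟩
  · intro φ hφ
    simp only [List.mem_append] at hφ
    rcases hφ with h | h | h
    · exact hB φ h
    · exact hB₁ φ h
    · exact hB₂ φ h
  · intro S hS
    obtain ⟨U, u1, u2, u3, -⟩ := h (B ++ S) (hBS hS) fun φ hφ => List.mem_append_left _ hφ
    rw [← ap_lc] at u1
    rw [← sub_one_eq t1 (lc S) (as [lc S]) rfl]
    refine ⟨Fm.cl_sentence _ _, fun e => ?_⟩
    rw [Fm.sat_cl, t2]
    intro n
    show cP con (f (ap B (lc S))) n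
    rw [u1, cP_lc hcon u2]
    exact u3 n
  · intro S hS hBS' hsh
    obtain ⟨U, u1, u2, -, u4⟩ := h (B ++ S) (hBS hS) fun φ hφ => List.mem_append_left _ hφ
    rw [← ap_lc] at u1
    refine u4 ?_
    have b0 : ∀ φ ∈ B, φ ∈ S := fun φ hφ => hBS' φ (by simp [hφ])
    have b1 : ∀ φ ∈ B₁, φ ∈ S := fun φ hφ => hBS' φ (by simp [hφ])
    have b2 : ∀ φ ∈ B₂, φ ∈ S := fun φ hφ => hBS' φ (by simp [hφ])
    obtain ⟨T, hT⟩ : ∃ T, T = θ.sub 0 (.num (lc S)) :: S := ⟨_, rfl⟩
    rw [← hT] at hsh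
    have hTs : ∀ φ ∈ T, Sentence φ := by
      intro φ hφ
      rw [hT] at hφ
      rcases List.mem_cons.mp hφ with rfl | hφ
      · rw [← sub_one_eq t1 (lc S) (as [lc S]) rfl]; exact Fm.cl_sentence _ _
      · exact (hS φ hφ).1
    have hTU : Pv T (conS con U) := by
      refine t3 T (fun φ hφ => ?_) (lc S) U u1 (Pv.mem ?_)
      · rw [hT]; exact List.mem_cons_of_mem _ (b2 φ hφ)
      · rw [hT]; exact List.mem_cons_self
    obtain ⟨c, c', hc⟩ := hpsc S T U b1 hTs u2 (fun φ hφ => pv_iff.mp (Pv.mem (by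
      rw [hT]; exact List.mem_cons_of_mem _ (b1 φ hφ)))) (pv_iff.mp hTU)
    obtain ⟨d, hd⟩ := hsh
    have hP : PB (fun n => (n + (((n + c) ^ c) ^ d + d) + c') ^ c') :=
      PB.pow ((PB.id.add ((PB.pow (PB.pow (PB.id.add (PB.const c)) c) d).add (PB.const d))).add
        (PB.const c')) c'
    exact (Short.of_le hP fun n => hc n _ (hd ((n + c) ^ c))).monoT
      fun φ hφ => List.mem_append_right _ hφ

/-- The equivalences. -/
theorem equiv {con : Fm} (hcon : IsCon con) (hpsc : PscStmt con) :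
    (NegC con ↔ NegT con) ∧ (NegC con ↔ NegR con) ∧ (NegC con ↔ NegF con) :=
  ⟨⟨negT_of_negC, fun h => negC_of_negR hcon (negR_of_negT hcon h)⟩,
    ⟨fun h => negR_of_negT hcon (negT_of_negC h), negC_of_negR hcon⟩,
    ⟨fun h => negF_of_negT hcon (negT_of_negC h),
      fun h => negC_of_negR hcon (negR_of_negF hcon hpsc h)⟩⟩

end Helper31Con.H40
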