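import Pool.Agent.Helper40_H.Nf
import Pool.Agent.Helper15_PSC.Main

/-!
# Equivalents of a positive answer above every base
-/

namespace Helper31Con.H40

open Function Filter Fm Amp H5

lemma pscStmt {con : Fm} (hcon : IsCon con) : PscStmt con := by
  obtain ⟨B₁, h1, h2⟩ := Amp.psc hcon
  refine ⟨B₁, h1, fun A T U hA hT hU hTB hTU => ?_⟩
  obtain ⟨c, d, h3⟩ := h2 T U hT hU hTB hTU
  exact ⟨c, d, h3 A hA⟩

lemma posC_iff {con : Fm} : (∀ B, AllTrue B → PosC con B) ↔ ¬ NegC con := by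
  constructor
  · rintro h ⟨B, hB, h'⟩
    obtain ⟨A, h1, h2, h3, h4⟩ := h B hB
    exact h' A h1 h2 h3 h4
  · intro h B hB
    by_contra h'
    exact h ⟨B, hB, fun A h1 h2 h3 h4 => h' ⟨A, h1, h2, h3, h4⟩⟩

/-- The operators. -/
lemma posR_iff {con : Fm} : (∀ θ : Fm, (∀ S, AllTrue S → TrueS (θ.sub 0 (.num (lc S)))) →
    ∀ B, AllTrue B → ∃ S, AllTrue S ∧ (∀ φ ∈ B, φ ∈ S) ∧ Short con S (PlusOp θ S)) ↔
    ¬ NegR con := by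
  constructor
  · rintro h ⟨θ, B, hB, h1, h2⟩
    obtain ⟨S, h3, h4, h5⟩ := h θ h1 B hB
    exact h2 S h3 h4 h5
  · intro h θ hθ B hB
    by_contra h'
    exact h ⟨θ, B, hB, hθ, fun S h1 h2 h3 => h' ⟨S, h1, h2, h3⟩⟩

/-- The computable functions. -/
lemma posF_iff {con : Fm} : (∀ (f : ℕ → ℕ) (B : List Fm), Computable f → AllTrue B →
    (∀ S, AllTrue S → (∀ φ ∈ B, φ ∈ S) → ∃ U, f (lc S) = lc U ∧ Sents U ∧ Consis U) →
    ∃ S U, AllTrue S ∧ (∀ φ ∈ B, φ ∈ S) ∧ f (lc S) = lc U ∧ Short con S U) ↔ ¬ NegF con := by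
  constructor
  · rintro h ⟨f, B, hf, hB, h1⟩
    obtain ⟨S, U, h2, h3, h4, h5⟩ := h f B hf hB fun S h2 h3 => by
      obtain ⟨U, u1, u2, u3, _⟩ := h1 S h2 h3
      exact ⟨U, u1, u2, u3⟩
    obtain ⟨U', u1, u2, u3, u4⟩ := h1 S h2 h3
    obtain rfl := lc_inj (h4.symm.trans u1)
    exact u4 h5
  · intro h f B hf hB h1
    by_contra h'
    refine h ⟨f, B, hf, hB, fun S h2 h3 => ?_⟩
    obtain ⟨U, u1, u2, u3⟩ := h1 S h2 h3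
    exact ⟨U, u1, u2, u3, fun h5 => h' ⟨S, U, h2, h3, u1, h5⟩⟩

theorem final {con : Fm} (hcon : IsCon con) :
    (∃ B₁, AllTrue B₁ ∧ (∀ φ ∈ Q, φ ∈ B₁) ∧ ∀ B, AllTrue B → (∀ φ ∈ B₁, φ ∈ B) →
      (PosC con B ↔ PosT con B) ∧ (PosC con B ↔ PosX con B)) ∧
    ((∀ B, AllTrue B → PosC con B) ↔
      ∀ θ : Fm, (∀ S, AllTrue S → TrueS (θ.sub 0 (.num (lc S)))) →
        ∀ B, AllTrue B → ∃ S, AllTrue S ∧ (∀ φ ∈ B, φ ∈ S) ∧ Short con S (PlusOp θ S)) ∧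
    ((∀ B, AllTrue B → PosC con B) ↔
      ∀ (f : ℕ → ℕ) (B : List Fm), Computable f → AllTrue B →
        (∀ S, AllTrue S → (∀ φ ∈ B, φ ∈ S) → ∃ U, f (lc S) = lc U ∧ Sents U ∧ Consis U) →
        ∃ S U, AllTrue S ∧ (∀ φ ∈ B, φ ∈ S) ∧ f (lc S) = lc U ∧ Short con S U) := by
  obtain ⟨-, e2, e3⟩ := equiv hcon (pscStmt hcon)
  refine ⟨nf hcon, ?_, ?_⟩
  · rw [posC_iff, posR_iff, e2]
  · rw [posC_iff, posF_iff, e3]

end Helper31Con.H40
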