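import Pool.Agent.Helper40_H.Equiv

/-!
# The normal form of a positive answer
-/

namespace Helper31Con.H40

open Function Filter Fm Amp H5

lemma pv_cj_intro {T : List Fm} : ∀ {S : List Fm}, (∀ φ ∈ S, Sentence φ) → (∀ φ ∈ S, Pv T φ) →
    Pv T (X81.cj S)
  | [], _, _ => Pv.ded (fun _ h => h) (Pv.mem List.mem_cons_self)
  | φ :: S, h, h' => by
    have hS : ∀ ψ ∈ S, Sentence ψ := fun ψ hψ => h ψ (List.mem_cons_of_mem _ hψ)
    have ih := pv_cj_intro hS fun ψ hψ => h' ψ (List.mem_cons_of_mem _ hψ)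
    refine Pv.ded (χ := imp φ (neg (X81.cj S))) (φ := bot)
      (sentence_imp (h _ List.mem_cons_self) (sentence_neg (X81.cj_sentence hS))) ?_
    exact Pv.mp (Pv.mp (Pv.mem List.mem_cons_self) (Pv.cons (h' _ List.mem_cons_self)))
      (Pv.cons ih)

/-- Case distinction with bounds. -/
lemma pr_cases {B : List Fm} {a b φ : Fm} (ha : Sentence a) (hb : Sentence b) (hφ : Sentence φ)
    {k : ℕ} (ka : a.len ≤ k) (kb : b.len ≤ k) (h1 : Pr (a :: B) k k φ) (h2 : Pr (b :: B) k k φ) :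
    Pr (imp (neg a) b :: B) (450 * (k + 1)) (450 * (k + 1)) φ := by
  have kφ : φ.len ≤ k := h1.len_le
  obtain ⟨δ, hδ⟩ : ∃ δ, δ = imp (neg a) b := ⟨_, rfl⟩
  have lδ : δ.len ≤ 2 * k + 3 := by rw [hδ]; simp only [Fm.len, Fm.neg]; omega
  have lneg : (neg φ).len ≤ k + 2 := by simp only [Fm.len, Fm.neg]; omega
  have hnφ : Sentence (neg φ) := sentence_neg hφ
  rw [← hδ]
  have i1 : Pr B (5 * k) (15 * (k + 1)) (imp a φ) := (h1.ded ha).mono le_rfl (by omega)
  have i2 : Pr B (5 * k) (15 * (k + 1)) (imp b φ) := (h2.ded hb).mono le_rfl (by omega)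
  obtain ⟨Γ, hΓ⟩ : ∃ Γ, Γ = neg φ :: δ :: B := ⟨_, rfl⟩
  have s1 : ∀ ψ ∈ B, ψ ∈ Γ := fun ψ hψ => by
    rw [hΓ]; exact List.mem_cons_of_mem _ (List.mem_cons_of_mem _ hψ)
  have j1 : Pr (a :: Γ) (5 * k + 1 + 1) (15 * (k + 1)) φ :=
    (i1.monoT fun ψ hψ => List.mem_cons_of_mem _ (s1 ψ hψ)).mp
      (Pr.mem List.mem_cons_self (by omega))
  have j2 : Pr (a :: Γ) (1 + (5 * k + 1 + 1) + 1) (15 * (k + 1)) bot :=
    Pr.mp (φ := φ) (Pr.mem (φ := neg φ) (by rw [hΓ]; simp) (by omega)) j1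
  have j3 : Pr Γ (25 * k + 20) (85 * (k + 1)) (neg a) := (j2.ded ha).mono (by omega) (by omega)
  have j4 : Pr Γ (1 + (25 * k + 20) + 1) (85 * (k + 1)) b :=
    Pr.mp (φ := neg a) (Pr.mem (φ := imp (neg a) b) (by rw [hΓ, hδ]; simp)
      (by rw [← hδ]; omega)) j3
  have j5 : Pr Γ (5 * k + (1 + (25 * k + 20) + 1) + 1) (85 * (k + 1)) φ :=
    Pr.mp (φ := b) ((i2.monoT s1).mono le_rfl (by omega)) j4
  have j6 : Pr Γ (1 + (5 * k + (1 + (25 * k + 20) + 1) + 1) + 1) (85 * (k + 1)) bot :=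
    Pr.mp (φ := φ) (Pr.mem (φ := neg φ) (by rw [hΓ]; simp) (by omega)) j5
  rw [hΓ] at j6
  have j7 : Pr (δ :: B) (150 * k + 125) (450 * (k + 1)) (neg (neg φ)) :=
    (j6.ded hnφ).mono (by omega) (by omega)
  exact ((Pr.ax (Ax.dne φ) (by simp only [Fm.len]; omega)).mp j7).mono (by omega) le_rfl

/-- Proofs from provable axioms. -/
lemma prov_cut_const {T Ps : List Fm} (h : ∀ P ∈ Ps, ∃ k, Prov T k P) :
    ∃ C, ∀ k φ, Prov (Ps ++ T) k φ → Prov T (k + C) φ := by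
  obtain ⟨L₀, h1, h2⟩ := exists_list h
  refine ⟨plen L₀, fun k φ hφ => ?_⟩
  obtain ⟨L, hL, hlen⟩ := hφ
  refine ⟨L ++ L₀, cut_list hL h1 h2, ?_⟩
  rw [plen_cons] at hlen ⊢
  rw [plen_append]
  omega

/-- The atom from the finite consistency statement. -/
lemma atom_fact {con θ : Fm} (I : IfaceS (RA con θ)) (hcon : IsCon con) :
    ∃ c, ∀ᶠ B in rich, ∀ (T : List Fm) (m k : ℕ), Prov B k (conN con T m) →
      Pr B (k + c * (m + lc T + 1) + c) (k + c * (m + lc T + 1) + c)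
        (I.A 23 (nT (lc T)) (nT m) o o) := by
  obtain ⟨c, h⟩ := horn1 (α := con) (β := I.A 23 (x 0) (x 1) o o) (fun e h => by
    rw [I.sat _ _ _ _ _ _ (by simp [Al]) (by simp [Al]) (by simp) (by simp)]
    exact (hcon.cP_iff e).mp h)
  refine ⟨c, ?_⟩
  filter_upwards [h] with B h T m k hk
  have h1 := h (as [lc T, m]) (m + lc T) (k + c * (m + lc T + 1)) k (as_le (by
    intro a ha
    simp only [List.mem_cons, List.not_mem_nil, or_false] at ha
    rcases ha with rfl | rfl <;> omega)) (by omega) (by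
    rw [← hcon.conN_eq]
    exact hk.pr.mono le_rfl (by omega))
  rw [I.cl _ _ _ _ _ _ (by simp [Al]) (by simp [Al]) (by simp) (by simp)] at h1
  exact h1.mono (by omega) (by omega)

lemma atom_sentence {con θ : Fm} (I : IfaceS (RA con θ)) (j a b : ℕ) :
    Sentence (I.A j (nT a) (nT b) o o) := by
  intro k hk
  rcases I.free j _ _ _ _ k (by simp) (by simp) (by simp) (by simp) hk with h | h | h | h
  · exact Tm.not_has_num _ _ h
  · exact Tm.not_has_num _ _ h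
  · exact h
  · exact h

theorem nf {con : Fm} (hcon : IsCon con) : ∃ B₁ : List Fm, (∀ φ ∈ B₁, TrueS φ) ∧
    (∀ φ ∈ Q, φ ∈ B₁) ∧ ∀ B : List Fm, (∀ φ ∈ B, TrueS φ) → (∀ φ ∈ B₁, φ ∈ B) →
      (PosC con B ↔ PosT con B) ∧ (PosC con B ↔ PosX con B) := by
  obtain ⟨I⟩ := exists_ifaceA (θ := bot) hcon (fun k hk => absurd hk (fun h => h))
  obtain ⟨Bs, hBs, hRef⟩ := exists_ref I hcon
  obtain ⟨Bc, hBc, hcore⟩ := core I hcon hRef
  obtain ⟨Bd, hBd, hdown⟩ := down I hcon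
  obtain ⟨cA, hatom⟩ := atom_fact I hcon
  obtain ⟨Bx, hBx, hfx⟩ := rich_iff.mp ((cc_fact I hcon).and
    ((X81.mono_fact I hcon).and hatom))
  obtain ⟨B₁, hB₁⟩ : ∃ B₁, B₁ = Q ++ (Bs ++ (Bc ++ (Bd ++ Bx))) := ⟨_, rfl⟩
  have m1 : ∀ φ ∈ Q, φ ∈ B₁ := fun φ hφ => by rw [hB₁]; simp [hφ]
  have m2 : ∀ φ ∈ Bs, φ ∈ B₁ := fun φ hφ => by rw [hB₁]; simp [hφ]
  have m3 : ∀ φ ∈ Bc, φ ∈ B₁ := fun φ hφ => by rw [hB₁]; simp [hφ]
  have m4 : ∀ φ ∈ Bd, φ ∈ B₁ := fun φ hφ => by rw [hB₁]; simp [hφ]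
  have m5 : ∀ φ ∈ Bx, φ ∈ B₁ := fun φ hφ => by rw [hB₁]; simp [hφ]
  have hB₁t : ∀ φ ∈ B₁, TrueS φ := by
    intro φ hφ
    rw [hB₁] at hφ
    simp only [List.mem_append] at hφ
    rcases hφ with h | h | h | h | h
    · exact Q_true φ h
    · exact hBs φ h
    · exact hBc φ h
    · exact hBd φ h
    · exact hBx φ h
  refine ⟨B₁, hB₁t, m1, fun B hB hBB => ?_⟩
  -- positive instances give `X`
  have s1 : PosC con B → PosX con B := by
    rintro ⟨A, hA, hAc, hAB, c', hc'⟩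
    refine ⟨A, hA, hAc, hAB, ?_⟩
    obtain ⟨T, hT⟩ : ∃ T, T = conS con A :: A := ⟨_, rfl⟩
    change ∀ n, Prov A (n ^ c' + c') (conN con (conS con A :: A) n) at hc'
    rw [← hT] at hc'
    have hTs : ∀ φ ∈ T, Sentence φ := by
      intro φ hφ
      rw [hT] at hφ
      rcases List.mem_cons.mp hφ with rfl | hφ
      · exact hcon.conS_sentence A
      · exact hA φ hφ
    obtain ⟨S, hS⟩ : ∃ S, S = conS con A :: B := ⟨_, rfl⟩
    have hSs : ∀ φ ∈ S, Sentence φ := by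
      intro φ hφ
      rw [hS] at hφ
      rcases List.mem_cons.mp hφ with rfl | hφ
      · exact hcon.conS_sentence A
      · exact (hB φ hφ).1
    have hTS : ∀ φ ∈ S, ∃ k, Prov T k φ := by
      intro φ hφ
      rw [hS] at hφ
      rcases List.mem_cons.mp hφ with rfl | hφ
      · exact pv_iff.mp (Pv.mem (by rw [hT]; exact List.mem_cons_self))
      · exact pv_iff.mp (by rw [hT]; exact Pv.cons (pv_iff.mpr (hAB φ hφ)))
    obtain ⟨L, hL1, hL2⟩ := exists_list (T := T) (Ps := S) hTS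
    have hBA : ∀ φ ∈ B₁, φ ∈ B ++ A := fun φ hφ => List.mem_append_left _ (hBB φ hφ)
    obtain ⟨-, -, hat⟩ := hfx (B ++ A) fun φ hφ => hBA φ (m5 φ hφ)
    obtain ⟨c, hc⟩ := hdown (B ++ A) A T S L (fun β hβ => hBA β (m4 β hβ)) hTs hSs hL1
      (isProof_of_subset hL2) (fun u => u + cA * (u + lc T + 1) + cA)
      (((PB.id.add ((PB.const cA).mul ((PB.id.add (PB.const _)).add (PB.const 1)))).add
        (PB.const cA))) (fun m k hk => by
        have hk' : Prov (B ++ A) k (conN con T m) := by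
          obtain ⟨L, h1, h2⟩ := hk
          exact ⟨L, h1.mono fun φ hφ => List.mem_append_right _ hφ, h2⟩
        have h1 := cA * (m + lc T + 1)
        have h2 : cA * (m + lc T + 1) ≤ cA * (m + k + lc T + 1) :=
          Nat.mul_le_mul_left _ (by omega)
        exact (hat T m k hk').mono (by omega) (by omega))
    obtain ⟨C, hC⟩ := prov_cut_const (T := A) (Ps := B) hAB
    have hP : PB (fun n => (n + ((n + c) ^ c' + c') + c) ^ c + C) :=
      (PB.pow ((PB.id.add ((PB.pow (PB.id.add (PB.const c)) c').add (PB.const c'))).add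
        (PB.const c)) c).add (PB.const C)
    rw [← hS]
    exact Short.of_le hP fun n => hC _ _ (hc n _ (hc' (n + c)))
  -- `X` gives a true positive instance
  have s2 : PosX con B → PosT con B := by
    rintro ⟨X, hX, hXc, hXB, c', hc'⟩
    have hXB' : ∀ φ ∈ B, Pv X φ := fun φ hφ => pv_iff.mpr (hXB φ hφ)
    obtain ⟨a, ha⟩ : ∃ a, a = conS con X := ⟨_, rfl⟩
    obtain ⟨b, hb⟩ : ∃ b, b = X81.cj X := ⟨_, rfl⟩
    have has : Sentence a := by rw [ha]; exact hcon.conS_sentence X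
    have hbs : Sentence b := by rw [hb]; exact X81.cj_sentence hX
    have hat : TrueS a := ⟨has, fun e => by rw [ha]; exact (hcon.conS_sat hX e).mpr hXc⟩
    rw [← ha] at hc'
    obtain ⟨TX, hTX⟩ : ∃ TX, TX = a :: B := ⟨_, rfl⟩
    rw [← hTX] at hc'
    have hTXs : ∀ φ ∈ TX, Sentence φ := by
      intro φ hφ
      rw [hTX] at hφ
      rcases List.mem_cons.mp hφ with rfl | hφ
      · exact has
      · exact (hB φ hφ).1
    obtain ⟨A, hA⟩ : ∃ A, A = imp (neg a) b :: B := ⟨_, rfl⟩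
    have hAt : ∀ φ ∈ A, TrueS φ := by
      intro φ hφ
      rw [hA] at hφ
      rcases List.mem_cons.mp hφ with rfl | hφ
      · exact ⟨sentence_imp (sentence_neg has) hbs, fun e h => absurd (hat.2 e) h⟩
      · exact hB φ hφ
    have hBA : ∀ φ ∈ B, φ ∈ A := fun φ hφ => by rw [hA]; exact List.mem_cons_of_mem _ hφ
    refine ⟨A, hAt, hBA, ?_⟩
    obtain ⟨T', hT'⟩ : ∃ T', T' = conS con A :: A := ⟨_, rfl⟩
    have hT's : ∀ φ ∈ T', Sentence φ := by
      intro φ hφ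
      rw [hT'] at hφ
      rcases List.mem_cons.mp hφ with rfl | hφ
      · exact hcon.conS_sentence A
      · exact (hAt φ hφ).1
    have n1 : ∀ {φ : Fm}, φ ∈ B₁ → φ ∈ TX := fun h => by
      rw [hTX]; exact List.mem_cons_of_mem _ (hBB _ h)
    -- `TX` proves `T'`
    have q1 : Pv TX a := Pv.mem (by rw [hTX]; exact List.mem_cons_self)
    have q2 : ∀ φ ∈ A, Pv TX φ := by
      intro φ hφ
      rw [hA] at hφ
      rcases List.mem_cons.mp hφ with rfl | hφ
      · refine Pv.ded (sentence_neg has) (Pv.efq ?_)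
        exact Pv.mp (Pv.mem (φ := neg a) List.mem_cons_self) (Pv.cons q1)
      · exact Pv.mem (by rw [hTX]; exact List.mem_cons_of_mem _ hφ)
    have q3 : ∀ φ ∈ A, Pv X φ := by
      intro φ hφ
      rw [hA] at hφ
      rcases List.mem_cons.mp hφ with rfl | hφ
      · refine Pv.mp (Pv.ax (Ax.k b (neg a))) ?_
        rw [hb]
        exact pv_cj_intro hX fun φ hφ => Pv.mem hφ
      · exact hXB' φ hφ
    have q4 : Pv TX (conS con A) := by
      obtain ⟨-, hmo, -⟩ := hfx TX fun φ hφ => n1 (m5 φ hφ)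
      exact hmo X A hX (fun φ hφ => (hAt φ hφ).1) q3 (by rw [← ha]; exact q1)
    have q5 : ∀ φ ∈ T', ∃ k, Prov TX k φ := by
      intro φ hφ
      rw [hT'] at hφ
      rcases List.mem_cons.mp hφ with rfl | hφ
      · exact pv_iff.mp q4
      · exact pv_iff.mp (q2 φ hφ)
    obtain ⟨L, hL1, hL2⟩ := exists_list (T := TX) (Ps := T') q5
    -- first case
    obtain ⟨hcc, -, -⟩ := hfx TX fun φ hφ => n1 (m5 φ hφ)
    obtain ⟨k₀, hk₀⟩ := hcc X (by rw [← ha, hTX]; exact List.mem_cons_self)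
    obtain ⟨F₁, hF₁P, hF₁⟩ := hcore TX X TX (fun β hβ => n1 (m3 β hβ)) hX
      (fun β hβ => hXB β (hBB β (m2 β hβ))) hTXs k₀ hk₀
    -- second case
    obtain ⟨E, hE⟩ : ∃ E, E = b :: B := ⟨_, rfl⟩
    have r1 : ∀ φ ∈ X, ∃ k, Prov E k φ := by
      intro φ hφ
      refine pv_iff.mp (X81.pv_cj hX (Pv.mem ?_) φ hφ)
      rw [hE, hb]; exact List.mem_cons_self
    obtain ⟨C, hC⟩ := prov_cut_const (T := E) (Ps := X) r1
    obtain ⟨-, -, hatE⟩ := hfx E fun φ hφ => by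
      rw [hE]; exact List.mem_cons_of_mem _ (hBB φ (m5 φ hφ))
    obtain ⟨F₂, hF₂⟩ : ∃ F₂ : ℕ → ℕ, F₂ = fun u => (u + C) + cA * (u + lc TX + 1) + cA := ⟨_, rfl⟩
    have hF₂P : PB F₂ := by
      rw [hF₂]
      exact ((PB.id.add (PB.const C)).add ((PB.const cA).mul ((PB.id.add (PB.const _)).add
        (PB.const 1)))).add (PB.const cA)
    have hF₂' : ∀ m k, Prov X k (conN con TX m) →
        Pr E (F₂ (m + k)) (F₂ (m + k)) (I.A 23 (nT (lc TX)) (nT m) o o) := by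
      intro m k hk
      have hk' : Prov (X ++ E) k (conN con TX m) := by
        obtain ⟨L, h1, h2⟩ := hk
        exact ⟨L, h1.mono fun φ hφ => List.mem_append_left _ hφ, h2⟩
      have h1 := hatE TX m _ (hC k _ hk')
      have h2 : cA * (m + lc TX + 1) ≤ cA * (m + k + lc TX + 1) :=
        Nat.mul_le_mul_left _ (by omega)
      have h3 : F₂ (m + k) = (m + k + C) + cA * (m + k + lc TX + 1) + cA := by rw [hF₂]
      rw [h3]
      exact h1.mono (by omega) (by omega)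
    -- both
    obtain ⟨F, hF⟩ : ∃ F : ℕ → ℕ, F = fun u => 450 * (F₁ u + F₂ u + a.len + b.len + 1) := ⟨_, rfl⟩
    have hFP : PB F := by
      rw [hF]
      exact (PB.const 450).mul ((((hF₁P.add hF₂P).add (PB.const _)).add (PB.const _)).add
        (PB.const 1))
    have hF' : ∀ m k, Prov X k (conN con TX m) →
        Pr A (F (m + k)) (F (m + k)) (I.A 23 (nT (lc TX)) (nT m) o o) := by
      intro m k hk
      have h1 := hF₁ m k hk
      have h2 := hF₂' m k hk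
      rw [hTX] at h1
      rw [hE] at h2
      rw [← hTX] at h1
      rw [hA, hF]
      have h3 : Pr (a :: B) (F₁ (m + k) + F₂ (m + k) + a.len + b.len)
          (F₁ (m + k) + F₂ (m + k) + a.len + b.len) (I.A 23 (nT (lc TX)) (nT m) o o) := by
        rw [hTX] at h1 ⊢
        exact h1.mono (by omega) (by omega)
      exact pr_cases has hbs (atom_sentence I 23 _ _) (by omega) (by omega) h3
        (h2.mono (by omega) (by omega))
    obtain ⟨c, hc⟩ := hdown A X TX T' L (fun β hβ => hBA β (hBB β (m4 β hβ))) hTXs hT's hL1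
      (isProof_of_subset hL2) F hFP hF'
    have hP : PB (fun n => (n + ((n + c) ^ c' + c') + c) ^ c) :=
      PB.pow ((PB.id.add ((PB.pow (PB.id.add (PB.const c)) c').add (PB.const c'))).add
        (PB.const c)) c
    show Short con A (conS con A :: A)
    rw [← hT']
    exact Short.of_le hP fun n => hc n _ (hc' (n + c))
  have s3 : PosT con B → PosC con B := by
    rintro ⟨A, hA, hBA, h⟩
    exact ⟨A, fun φ hφ => (hA φ hφ).1, true_consistent hA,
      fun φ hφ => pv_iff.mp (Pv.mem (hBA φ hφ)), h⟩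
  exact ⟨⟨fun h => s2 (s1 h), s3⟩, ⟨s1, fun h => s3 (s2 h)⟩⟩

end Helper31Con.H40
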