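import Pool.Agent.Helper81_X.Step
import Mathlib.Computability.Partrec

/-!
# Rich finite sets of true sentences represent all partial recursive functions
-/

namespace Helper31Con.H40

open Function Filter Fm Amp H5

/-- The relation is definable, and rich finite sets of true sentences prove its true instances. -/
def RepR (R : ℕ → ℕ → ℕ → ℕ → Prop) : Prop :=
  D4 R ∧ ∃ φ : Fm, (∀ e, φ.Sat e ↔ R (e 0) (e 1) (e 2) (e 3)) ∧
    ∀ᶠ B in rich, ∀ a b c d, R a b c d → Pv B (φ.cl (as [a, b, c, d]))

/-- The instances of the atom are provable. -/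
def Kn {R : ℕ → ℕ → ℕ → ℕ → ℕ → Prop} (I : Iface R) (j : ℕ) : Prop :=
  ∀ᶠ B in rich, ∀ a b c d, R j a b c d → Pv B (I.A j (nT a) (nT b) (nT c) (nT d))

lemma al {k : ℕ} (h : k < 16) : Al k := Or.inl h

lemma RepR.kn {R : ℕ → ℕ → ℕ → ℕ → ℕ → Prop} (I : Iface R) {j : ℕ} (h : RepR (R j)) :
    Kn I j := by
  obtain ⟨_, φ, h1, h2⟩ := h
  have h3 := hornP [φ] (I.V j 0 1 2 3) (fun e he => by
    rw [I.satV (al (by decide)) (al (by decide)) (al (by decide)) (al (by decide))]
    exact (h1 e).mp (he φ (by simp)))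
  filter_upwards [h2, h3] with B h2 h3 a b c d hR
  have h4 := h3 (as [a, b, c, d]) (as_bdd _) (by
    intro α hα
    simp only [List.mem_cons, List.not_mem_nil, or_false] at hα
    subst hα
    exact h2 a b c d hR)
  rwa [I.clV (al (by decide)) (al (by decide)) (al (by decide)) (al (by decide))] at h4

lemma Kn.rep {R : ℕ → ℕ → ℕ → ℕ → ℕ → Prop} {I : Iface R} {j : ℕ} (h : Kn I j)
    (hd : D4 (R j)) : RepR (R j) := by
  refine ⟨hd, I.V j 0 1 2 3, fun e =>
    I.satV (al (by decide)) (al (by decide)) (al (by decide)) (al (by decide)) e, ?_⟩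
  filter_upwards [h] with B h a b c d hR
  rw [I.clV (al (by decide)) (al (by decide)) (al (by decide)) (al (by decide))]
  exact h a b c d hR

/-- A finite family of relations. -/
def fam (l : List (ℕ → ℕ → ℕ → ℕ → Prop)) : ℕ → ℕ → ℕ → ℕ → ℕ → Prop :=
  fun j => l.getD j (fun _ _ _ _ => False)

lemma fam_iface (l : List (ℕ → ℕ → ℕ → ℕ → Prop)) (h : ∀ R ∈ l, D4 R) :
    Nonempty (Iface (fam l)) := by
  obtain ⟨I⟩ := exists_ifaceS (R := fam l) (fun i => by
    unfold fam
    by_cases hi : i < l.length
    · rw [List.getD_eq_getElem _ _ hi]; exact h _ (List.getElem_mem hi)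
    · rw [List.getD_eq_default _ _ (by omega)]; exact Dfn.false') l.length
    (fun j a b c d hj => by
      by_contra hlt
      unfold fam at hj
      rw [List.getD_eq_default _ _ (by omega)] at hj
      exact hj)
  exact ⟨I.toIface⟩

/-- Value of a variable. -/
lemma Iface.sv {R : ℕ → ℕ → ℕ → ℕ → ℕ → Prop} (I : Iface R) {j a b c d : ℕ} (ha : a < 16)
    (hb : b < 16) (hc : c < 16) (hd : d < 16) (e : ℕ → ℕ) :
    (I.V j a b c d).Sat e ↔ R j (e a) (e b) (e c) (e d) :=
  I.satV (al ha) (al hb) (al hc) (al hd) e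

lemma Iface.cv {R : ℕ → ℕ → ℕ → ℕ → ℕ → Prop} (I : Iface R) {j a b c d : ℕ} (ha : a < 16)
    (hb : b < 16) (hc : c < 16) (hd : d < 16) (e : ℕ → ℕ) :
    (I.V j a b c d).cl e = I.A j (nT (e a)) (nT (e b)) (nT (e c)) (nT (e d)) :=
  I.clV (al ha) (al hb) (al hc) (al hd) e

/-! ### Pairs -/

/-- The graph of the pairing function of Mathlib. -/
def PaR (a b c _ : ℕ) : Prop := c = Nat.pair a b

lemma paR_iff (a b c d : ℕ) : PaR a b c d ↔ (a + 1 ≤ b ∧ c = b * b + a) ∨
    (b ≤ a ∧ c = a * a + a + b) := by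
  unfold PaR Nat.pair
  by_cases h : a < b
  · rw [if_pos h]
    constructor
    · intro h'; exact Or.inl ⟨h, h'⟩
    · rintro (h' | h')
      · exact h'.2
      · omega
  · rw [if_neg h]
    constructor
    · intro h'; exact Or.inr ⟨by omega, h'⟩
    · rintro (h' | h')
      · omega
      · exact h'.2

lemma d4_pa : D4 PaR := by
  refine (((Dfn.le (.succ (x 0)) (x 1)).and (Dfn.eq (x 2) (.add (.mul (x 1) (x 1)) (x 0)))).or
    ((Dfn.le (x 1) (x 0)).and (Dfn.eq (x 2) (.add (.add (.mul (x 0) (x 0)) (x 0)) (x 1))))).congr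
    fun e => ?_
  exact (paR_iff _ _ _ _).symm

lemma leP (t s : Tm) : ∀ᶠ B in rich, ∀ e : ℕ → ℕ, (∃ N, ∀ k, e k ≤ N) → t.val e ≤ s.val e →
    Pv B ((le t s).cl e) := by
  obtain ⟨f, _, h⟩ := le_fact t s
  filter_upwards [h] with B h e he hts
  obtain ⟨N, hN⟩ := he
  exact Pv.of (h e N hN hts)

lemma rep_pa : RepR PaR := by
  refine ⟨d4_pa, ?_⟩
  obtain ⟨φ, hφ⟩ := d4_pa
  refine ⟨φ, hφ, ?_⟩
  have r1 := hornP [le (.succ (x 0)) (x 1), eq (x 2) (.add (.mul (x 1) (x 1)) (x 0))] φ
    (fun e h => (hφ e).mpr ((paR_iff _ _ _ _).mpr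
      (Or.inl ⟨h _ List.mem_cons_self, h _ (List.mem_cons_of_mem _ List.mem_cons_self)⟩)))
  have r2 := hornP [le (x 1) (x 0), eq (x 2) (.add (.add (.mul (x 0) (x 0)) (x 0)) (x 1))] φ
    (fun e h => (hφ e).mpr ((paR_iff _ _ _ _).mpr
      (Or.inr ⟨h _ List.mem_cons_self, h _ (List.mem_cons_of_mem _ List.mem_cons_self)⟩)))
  filter_upwards [r1, r2, leP (.succ (x 0)) (x 1), leP (x 1) (x 0),
    X81.eqP (x 2) (.add (.mul (x 1) (x 1)) (x 0)),
    X81.eqP (x 2) (.add (.add (.mul (x 0) (x 0)) (x 0)) (x 1))] with B r1 r2 l1 l2 q1 q2 a b c d h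
  rcases (paR_iff a b c d).mp h with ⟨h1, h2⟩ | ⟨h1, h2⟩
  · refine r1 _ (as_bdd _) fun α hα => ?_
    simp only [List.mem_cons, List.not_mem_nil, or_false] at hα
    rcases hα with rfl | rfl
    · exact l1 _ (as_bdd _) h1
    · exact q1 _ (as_bdd _) h2
  · refine r2 _ (as_bdd _) fun α hα => ?_
    simp only [List.mem_cons, List.not_mem_nil, or_false] at hα
    rcases hα with rfl | rfl
    · exact l2 _ (as_bdd _) h1
    · exact q2 _ (as_bdd _) h2

/-! ### Binary relations -/

/-- Representable binary relations. -/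
def Rep2 (S : ℕ → ℕ → Prop) : Prop := RepR fun a b _ _ => S a b

lemma RepR.congr {R R' : ℕ → ℕ → ℕ → ℕ → Prop} (h : RepR R)
    (h' : ∀ a b c d, R a b c d ↔ R' a b c d) : RepR R' := by
  have : R = R' := by funext a b c d; exact propext (h' a b c d)
  rwa [← this]

lemma Rep2.congr {S S' : ℕ → ℕ → Prop} (h : Rep2 S) (h' : ∀ a b, S a b ↔ S' a b) : Rep2 S' :=
  RepR.congr h fun a b _ _ => h' a b

lemma rep_of_eq {t s : Tm} {S : ℕ → ℕ → Prop} (h : ∀ e : ℕ → ℕ, t.val e = s.val e ↔ S (e 0) (e 1)) :
    Rep2 S := by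
  refine ⟨(Dfn.eq t s).congr h, eq t s, h, ?_⟩
  filter_upwards [X81.eqP t s] with B q a b c d hS
  exact q _ (as_bdd _) ((h _).mpr hS)

lemma rep_zero : Rep2 fun _ b => b = 0 := rep_of_eq (t := x 1) (s := .zero) fun _ => Iff.rfl

lemma rep_succ : Rep2 fun a b => b = a + 1 := rep_of_eq (t := x 1) (s := .succ (x 0)) fun _ => Iff.rfl

lemma rep_left : Rep2 fun a b => b = (Nat.unpair a).1 := by
  have hd : D4 (fun a b _ _ => b = (Nat.unpair a).1) := by
    refine ((d4_pa.app (x 1) (x 4) (x 0) .zero).ex 4).congr fun e => ?_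
    simp (disch := decide) only [Tm.val, update_self, update_of_ne, PaR]
    constructor
    · rintro ⟨c, hc⟩
      rw [hc, Nat.unpair_pair]
    · intro h
      exact ⟨(Nat.unpair (e 0)).2, by rw [h, Nat.pair_unpair]⟩
  obtain ⟨I⟩ := fam_iface [PaR, fun a b _ _ => b = (Nat.unpair a).1] (by
    simp only [List.mem_cons, List.not_mem_nil, or_false]
    rintro R (rfl | rfl)
    · exact d4_pa
    · exact hd)
  have k0 : Kn I 0 := RepR.kn I rep_pa
  have r := hornP [I.V 0 1 2 0 3] (I.V 1 0 1 3 4) (fun e h => by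
    have h0 := (Iface.sv I (by decide) (by decide) (by decide) (by decide) e).mp
      (h _ List.mem_cons_self)
    have h0' : e 0 = Nat.pair (e 1) (e 2) := h0
    rw [Iface.sv I (by decide) (by decide) (by decide) (by decide)]
    show e 1 = (Nat.unpair (e 0)).1
    rw [h0', Nat.unpair_pair])
  refine Kn.rep (I := I) (j := 1) ?_ hd
  filter_upwards [k0, r] with B k0 r a b c d hR
  have hR' : b = (Nat.unpair a).1 := hR
  have := r (as [a, b, (Nat.unpair a).2, c, d]) (as_bdd _) (by
    intro α hα
    simp only [List.mem_cons, List.not_mem_nil, or_false] at hα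
    subst hα
    rw [Iface.cv I (by decide) (by decide) (by decide) (by decide)]
    exact k0 _ _ _ _ (by
      show a = Nat.pair b (Nat.unpair a).2
      rw [hR', Nat.pair_unpair]))
  rwa [Iface.cv I (by decide) (by decide) (by decide) (by decide)] at this

lemma rep_right : Rep2 fun a b => b = (Nat.unpair a).2 := by
  have hd : D4 (fun a b _ _ => b = (Nat.unpair a).2) := by
    refine ((d4_pa.app (x 4) (x 1) (x 0) .zero).ex 4).congr fun e => ?_
    simp (disch := decide) only [Tm.val, update_self, update_of_ne, PaR]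
    constructor
    · rintro ⟨c, hc⟩
      rw [hc, Nat.unpair_pair]
    · intro h
      exact ⟨(Nat.unpair (e 0)).1, by rw [h, Nat.pair_unpair]⟩
  obtain ⟨I⟩ := fam_iface [PaR, fun a b _ _ => b = (Nat.unpair a).2] (by
    simp only [List.mem_cons, List.not_mem_nil, or_false]
    rintro R (rfl | rfl)
    · exact d4_pa
    · exact hd)
  have k0 : Kn I 0 := RepR.kn I rep_pa
  have r := hornP [I.V 0 2 1 0 3] (I.V 1 0 1 3 4) (fun e h => by
    have h0 := (Iface.sv I (by decide) (by decide) (by decide) (by decide) e).mp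
      (h _ List.mem_cons_self)
    have h0' : e 0 = Nat.pair (e 2) (e 1) := h0
    rw [Iface.sv I (by decide) (by decide) (by decide) (by decide)]
    show e 1 = (Nat.unpair (e 0)).2
    rw [h0', Nat.unpair_pair])
  refine Kn.rep (I := I) (j := 1) ?_ hd
  filter_upwards [k0, r] with B k0 r a b c d hR
  have hR' : b = (Nat.unpair a).2 := hR
  have := r (as [a, b, (Nat.unpair a).1, c, d]) (as_bdd _) (by
    intro α hα
    simp only [List.mem_cons, List.not_mem_nil, or_false] at hα
    subst hα
    rw [Iface.cv I (by decide) (by decide) (by decide) (by decide)]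
    exact k0 _ _ _ _ (by
      show a = Nat.pair (Nat.unpair a).1 b
      rw [hR', Nat.pair_unpair]))
  rwa [Iface.cv I (by decide) (by decide) (by decide) (by decide)] at this

lemma rep_comp {F G : ℕ → ℕ → Prop} (hF : Rep2 F) (hG : Rep2 G) :
    Rep2 fun a b => ∃ u, G a u ∧ F u b := by
  have hd : D4 (fun a b _ _ => ∃ u, G a u ∧ F u b) := by
    refine (((hG.1.app (x 0) (x 4) .zero .zero).and (hF.1.app (x 4) (x 1) .zero .zero)).ex 4).congr
      fun e => ?_
    simp (disch := decide) only [Tm.val, update_self, update_of_ne]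
  obtain ⟨I⟩ := fam_iface [fun a b _ _ => F a b, fun a b _ _ => G a b,
      fun a b _ _ => ∃ u, G a u ∧ F u b] (by
    simp only [List.mem_cons, List.not_mem_nil, or_false]
    rintro R (rfl | rfl | rfl)
    · exact hF.1
    · exact hG.1
    · exact hd)
  have k0 : Kn I 0 := RepR.kn I hF
  have k1 : Kn I 1 := RepR.kn I hG
  have r := hornP [I.V 1 0 2 3 4, I.V 0 2 1 3 4] (I.V 2 0 1 3 4) (fun e h => by
    have h0 := (Iface.sv I (by decide) (by decide) (by decide) (by decide) e).mp
      (h _ List.mem_cons_self)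
    have h1 := (Iface.sv I (by decide) (by decide) (by decide) (by decide) e).mp
      (h _ (List.mem_cons_of_mem _ List.mem_cons_self))
    rw [Iface.sv I (by decide) (by decide) (by decide) (by decide)]
    exact ⟨e 2, h0, h1⟩)
  refine Kn.rep (I := I) (j := 2) ?_ hd
  filter_upwards [k0, k1, r] with B k0 k1 r a b c d hR
  obtain ⟨u, h1, h2⟩ := hR
  have := r (as [a, b, u, c, d]) (as_bdd _) (by
    intro α hα
    simp only [List.mem_cons, List.not_mem_nil, or_false] at hα
    rcases hα with rfl | rfl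
    · rw [Iface.cv I (by decide) (by decide) (by decide) (by decide)]
      exact k1 _ _ _ _ h1
    · rw [Iface.cv I (by decide) (by decide) (by decide) (by decide)]
      exact k0 _ _ _ _ h2)
  rwa [Iface.cv I (by decide) (by decide) (by decide) (by decide)] at this

lemma rep_pair {F G : ℕ → ℕ → Prop} (hF : Rep2 F) (hG : Rep2 G) :
    Rep2 fun a b => ∃ u v, F a u ∧ G a v ∧ b = Nat.pair u v := by
  have hd : D4 (fun a b _ _ => ∃ u v, F a u ∧ G a v ∧ b = Nat.pair u v) := by
    refine ((((hF.1.app (x 0) (x 4) .zero .zero).and ((hG.1.app (x 0) (x 5) .zero .zero).and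
      (d4_pa.app (x 4) (x 5) (x 1) .zero))).ex 5).ex 4).congr fun e => ?_
    simp (disch := decide) only [Tm.val, update_self, update_of_ne, PaR]
  obtain ⟨I⟩ := fam_iface [fun a b _ _ => F a b, fun a b _ _ => G a b, PaR,
      fun a b _ _ => ∃ u v, F a u ∧ G a v ∧ b = Nat.pair u v] (by
    simp only [List.mem_cons, List.not_mem_nil, or_false]
    rintro R (rfl | rfl | rfl | rfl)
    · exact hF.1
    · exact hG.1
    · exact d4_pa
    · exact hd)
  have k0 : Kn I 0 := RepR.kn I hF
  have k1 : Kn I 1 := RepR.kn I hG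
  have k2 : Kn I 2 := RepR.kn I rep_pa
  have r := hornP [I.V 0 0 2 3 4, I.V 1 0 5 3 4, I.V 2 2 5 1 3] (I.V 3 0 1 3 4) (fun e h => by
    have h0 := (Iface.sv I (by decide) (by decide) (by decide) (by decide) e).mp
      (h _ List.mem_cons_self)
    have h1 := (Iface.sv I (by decide) (by decide) (by decide) (by decide) e).mp
      (h _ (List.mem_cons_of_mem _ List.mem_cons_self))
    have h2 := (Iface.sv I (by decide) (by decide) (by decide) (by decide) e).mp
      (h _ (List.mem_cons_of_mem _ (List.mem_cons_of_mem _ List.mem_cons_self)))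
    rw [Iface.sv I (by decide) (by decide) (by decide) (by decide)]
    exact ⟨e 2, e 5, h0, h1, h2⟩)
  refine Kn.rep (I := I) (j := 3) ?_ hd
  filter_upwards [k0, k1, k2, r] with B k0 k1 k2 r a b c d hR
  obtain ⟨u, v, h1, h2, h3⟩ := hR
  have := r (as [a, b, u, c, d, v]) (as_bdd _) (by
    intro α hα
    simp only [List.mem_cons, List.not_mem_nil, or_false] at hα
    rcases hα with rfl | rfl | rfl
    · rw [Iface.cv I (by decide) (by decide) (by decide) (by decide)]
      exact k0 _ _ _ _ h1
    · rw [Iface.cv I (by decide) (by decide) (by decide) (by decide)]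
      exact k1 _ _ _ _ h2
    · rw [Iface.cv I (by decide) (by decide) (by decide) (by decide)]
      exact k2 _ _ _ _ h3)
  rwa [Iface.cv I (by decide) (by decide) (by decide) (by decide)] at this

/-! ### Primitive recursion -/

/-- The graph of the function defined by recursion. -/
def PR (F G : ℕ → ℕ → Prop) (a : ℕ) : ℕ → ℕ → Prop
  | 0, y => F a y
  | n + 1, y => ∃ i, PR F G a n i ∧ G (Nat.pair a (Nat.pair n i)) y

lemma pr_chain {F G : ℕ → ℕ → Prop} {a : ℕ} : ∀ {n y : ℕ}, PR F G a n y →
    ∃ c : ℕ → ℕ, c n = y ∧ F a (c 0) ∧ ∀ j < n, G (Nat.pair a (Nat.pair j (c j))) (c (j + 1))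
  | 0, y, h => ⟨fun _ => y, rfl, h, fun j hj => by omega⟩
  | n + 1, y, ⟨i, h1, h2⟩ => by
    obtain ⟨c, c1, c2, c3⟩ := pr_chain h1
    refine ⟨update c (n + 1) y, update_self .., ?_, fun j hj => ?_⟩
    · rw [update_of_ne (by omega)]; exact c2
    · rcases Nat.lt_succ_iff_lt_or_eq.mp hj with hj | rfl
      · rw [update_of_ne (by omega), update_of_ne (by omega)]; exact c3 j hj
      · rw [update_of_ne (by omega), update_self, c1]; exact h2

/-- The condition on tables. -/
def Tab (F G : ℕ → ℕ → Prop) (a n y A b K : ℕ) : Prop :=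
  y ≤ K ∧ Ent A b n y 0 0 ∧ ∀ i v, i ≤ n → v ≤ K → Ent A b i v 0 0 → (i = 0 ∧ F a v) ∨
    ∃ j w z z', i = j + 1 ∧ w ≤ K ∧ Ent A b j w 0 0 ∧ z = Nat.pair j w ∧ z' = Nat.pair a z ∧ G z' v

lemma pr_iff (F G : ℕ → ℕ → Prop) (a n y : ℕ) :
    PR F G a n y ↔ ∃ A b K, Tab F G a n y A b K := by
  constructor
  · intro h
    obtain ⟨c, c1, c2, c3⟩ := pr_chain h
    set K := (Finset.range (n + 1)).sup c with hK
    have hc : ∀ i ≤ n, c i ≤ K := fun i hi => Finset.le_sup (Finset.mem_range.mpr (by omega))
    obtain ⟨A, b, hAb⟩ := exists_table (fun m => ∃ i, m = nd i (nd (c i) (nd 0 0)))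
      ((Finset.range (n + 1)).sup (fun i => (Finset.range (K + 1)).sup
        (fun v => nd i (nd v (nd 0 0)))) + 1)
    have key : ∀ i v, i ≤ n → v ≤ K → (Ent A b i v 0 0 ↔ v = c i) := by
      intro i v hi hv
      have hm : nd i (nd v (nd 0 0)) < (Finset.range (n + 1)).sup (fun i =>
          (Finset.range (K + 1)).sup (fun v => nd i (nd v (nd 0 0)))) + 1 := by
        refine Nat.lt_succ_of_le ?_
        refine le_trans ?_ (Finset.le_sup (f := fun i => (Finset.range (K + 1)).sup
          (fun v => nd i (nd v (nd 0 0)))) (Finset.mem_range.mpr (show i < n + 1 by omega)))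
        exact Finset.le_sup (f := fun v => nd i (nd v (nd 0 0)))
          (Finset.mem_range.mpr (show v < K + 1 by omega))
      unfold Ent
      rw [hAb _ hm]
      constructor
      · rintro ⟨i', h'⟩
        obtain ⟨rfl, h2⟩ := nd_inj.mp h'
        exact (nd_inj.mp h2).1
      · rintro rfl
        exact ⟨i, rfl⟩
    refine ⟨A, b, K, ?_, ?_, ?_⟩
    · rw [← c1]; exact hc n le_rfl
    · rw [key n y le_rfl (by rw [← c1]; exact hc n le_rfl)]; exact c1.symm
    · intro i v hi hv he
      rw [key i v hi hv] at he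
      subst he
      rcases i with _ | j
      · exact Or.inl ⟨rfl, c2⟩
      · refine Or.inr ⟨j, c j, _, _, rfl, hc j (by omega), ?_, rfl, rfl, c3 j (by omega)⟩
        rw [key j (c j) (by omega) (hc j (by omega))]
  · rintro ⟨A, b, K, h1, h2, h3⟩
    have key : ∀ i, i ≤ n → ∀ v, v ≤ K → Ent A b i v 0 0 → PR F G a i v := by
      intro i
      induction i with
      | zero =>
        intro hi v hv he
        rcases h3 0 v hi hv he with h | ⟨j, _, _, _, h, _⟩
        · exact h.2
        · omega
      | succ i ih =>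
        intro hi v hv he
        rcases h3 (i + 1) v hi hv he with h | ⟨j, w, z, z', h, hw, hj, rfl, rfl, hG⟩
        · omega
        · obtain rfl : j = i := by omega
          exact ⟨w, ih (by omega) w hw hj, hG⟩
    exact key n le_rfl y h1 h2

lemma d4_pr {F G : ℕ → ℕ → Prop} (hF : D4 fun a b _ _ => F a b) (hG : D4 fun a b _ _ => G a b) :
    D4 fun a n y _ => PR F G a n y := by
  have inner := ((((((Dfn.eq (x 7) (.succ (x 9))).and ((Dfn.le (x 10) (x 6)).and
    ((dfn_ent (x 4) (x 5) (x 9) (x 10) .zero .zero).and ((d4_pa.app (x 9) (x 10) (x 11) .zero).and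
    ((d4_pa.app (x 0) (x 11) (x 12) .zero).and (hG.app (x 12) (x 8) .zero .zero)))))).ex 12).ex
    11).ex 10).ex 9)
  have key := ((((Dfn.le (x 2) (x 6)).and ((dfn_ent (x 4) (x 5) (x 1) (x 2) .zero .zero).and
    (((((Dfn.le (x 7) (x 1)).imp ((Dfn.le (x 8) (x 6)).imp
    ((dfn_ent (x 4) (x 5) (x 7) (x 8) .zero .zero).imp (((Dfn.eq (x 7) .zero).and
    (hF.app (x 0) (x 8) .zero .zero)).or inner))))).all 8).all 7))).ex 6).ex 5).ex 4
  refine key.congr fun e => ?_
  show _ ↔ PR F G (e 0) (e 1) (e 2)
  rw [pr_iff]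
  simp (disch := decide) only [Tm.val, update_self, update_of_ne, PaR, Tab]

lemma rep_prec {F G : ℕ → ℕ → Prop} (hF : Rep2 F) (hG : Rep2 G) :
    Rep2 fun a y => PR F G (Nat.unpair a).1 (Nat.unpair a).2 y := by
  have hd1 := d4_pr hF.1 hG.1
  have hd : D4 (fun a y _ _ => PR F G (Nat.unpair a).1 (Nat.unpair a).2 y) := by
    refine ((((d4_pa.app (x 4) (x 5) (x 0) .zero).and (hd1.app (x 4) (x 5) (x 1) .zero)).ex 5).ex
      4).congr fun e => ?_
    simp (disch := decide) only [Tm.val, update_self, update_of_ne, PaR]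
    constructor
    · rintro ⟨a, b, hab, h⟩
      rw [hab, Nat.unpair_pair]; exact h
    · intro h
      exact ⟨_, _, (Nat.pair_unpair _).symm, h⟩
  obtain ⟨I⟩ := fam_iface [fun a b _ _ => F a b, fun a b _ _ => G a b, PaR,
      fun a n y _ => PR F G a n y,
      fun a y _ _ => PR F G (Nat.unpair a).1 (Nat.unpair a).2 y] (by
    simp only [List.mem_cons, List.not_mem_nil, or_false]
    rintro R (rfl | rfl | rfl | rfl | rfl)
    · exact hF.1
    · exact hG.1
    · exact d4_pa
    · exact hd1
    · exact hd)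
  have k0 : Kn I 0 := RepR.kn I hF
  have k1 : Kn I 1 := RepR.kn I hG
  have k2 : Kn I 2 := RepR.kn I rep_pa
  have r0 := hornP [I.V 0 0 1 3 4, eq (x 2) .zero] (I.V 3 0 2 1 3) (fun e h => by
    have h0 := (Iface.sv I (by decide) (by decide) (by decide) (by decide) e).mp
      (h _ List.mem_cons_self)
    have h1 : e 2 = 0 := h _ (List.mem_cons_of_mem _ List.mem_cons_self)
    rw [Iface.sv I (by decide) (by decide) (by decide) (by decide)]
    show PR F G (e 0) (e 2) (e 1)
    rw [h1]; exact h0)
  have r1 := hornP [I.V 3 0 2 5 3, I.V 2 2 5 6 3, I.V 2 0 6 7 3, I.V 1 7 1 3 4,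
      eq (x 8) (.succ (x 2))] (I.V 3 0 8 1 3) (fun e h => by
    have h0 := (Iface.sv I (by decide) (by decide) (by decide) (by decide) e).mp
      (h _ List.mem_cons_self)
    have h1 := (Iface.sv I (by decide) (by decide) (by decide) (by decide) e).mp
      (h _ (List.mem_cons_of_mem _ List.mem_cons_self))
    have h2 := (Iface.sv I (by decide) (by decide) (by decide) (by decide) e).mp
      (h _ (List.mem_cons_of_mem _ (List.mem_cons_of_mem _ List.mem_cons_self)))
    have h3 := (Iface.sv I (by decide) (by decide) (by decide) (by decide) e).mp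
      (h _ (List.mem_cons_of_mem _ (List.mem_cons_of_mem _ (List.mem_cons_of_mem _
        List.mem_cons_self))))
    have h4 : e 8 = e 2 + 1 := h _ (List.mem_cons_of_mem _ (List.mem_cons_of_mem _
      (List.mem_cons_of_mem _ (List.mem_cons_of_mem _ List.mem_cons_self))))
    have h1' : e 6 = Nat.pair (e 2) (e 5) := h1
    have h2' : e 7 = Nat.pair (e 0) (e 6) := h2
    have h3' : G (e 7) (e 1) := h3
    rw [Iface.sv I (by decide) (by decide) (by decide) (by decide)]
    show PR F G (e 0) (e 8) (e 1)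
    rw [h4]
    refine ⟨e 5, h0, ?_⟩
    rw [← h1', ← h2']
    exact h3')
  have r2 := hornP [I.V 3 0 2 1 3, I.V 2 0 2 5 3] (I.V 4 5 1 3 4) (fun e h => by
    have h0 := (Iface.sv I (by decide) (by decide) (by decide) (by decide) e).mp
      (h _ List.mem_cons_self)
    have h1 := (Iface.sv I (by decide) (by decide) (by decide) (by decide) e).mp
      (h _ (List.mem_cons_of_mem _ List.mem_cons_self))
    have h1' : e 5 = Nat.pair (e 0) (e 2) := h1
    rw [Iface.sv I (by decide) (by decide) (by decide) (by decide)]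
    show PR F G (Nat.unpair (e 5)).1 (Nat.unpair (e 5)).2 (e 1)
    rw [h1', Nat.unpair_pair]
    exact h0)
  refine Kn.rep (I := I) (j := 4) ?_ hd
  filter_upwards [k0, k1, k2, r0, r1, r2, X81.eqP (x 2) .zero, X81.eqP (x 8) (.succ (x 2))] with B
    k0 k1 k2 r0 r1 r2 q0 q1 a y c d hR
  have key : ∀ a n y c, PR F G a n y → Pv B (I.A 3 (nT a) (nT n) (nT y) (nT c)) := by
    intro a n
    induction n with
    | zero =>
      intro y c h
      have := r0 (as [a, y, 0, c, 0]) (as_bdd _) (by
        intro α hα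
        simp only [List.mem_cons, List.not_mem_nil, or_false] at hα
        rcases hα with rfl | rfl
        · rw [Iface.cv I (by decide) (by decide) (by decide) (by decide)]
          exact k0 _ _ _ _ h
        · exact q0 _ (as_bdd _) rfl)
      rwa [Iface.cv I (by decide) (by decide) (by decide) (by decide)] at this
    | succ n ih =>
      rintro y c ⟨i, h1, h2⟩
      have := r1 (as [a, y, n, c, 0, i, Nat.pair n i, Nat.pair a (Nat.pair n i), n + 1])
        (as_bdd _) (by
        intro α hα
        simp only [List.mem_cons, List.not_mem_nil, or_false] at hα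
        rcases hα with rfl | rfl | rfl | rfl | rfl
        · rw [Iface.cv I (by decide) (by decide) (by decide) (by decide)]
          exact ih i c h1
        · rw [Iface.cv I (by decide) (by decide) (by decide) (by decide)]
          exact k2 _ _ _ _ rfl
        · rw [Iface.cv I (by decide) (by decide) (by decide) (by decide)]
          exact k2 _ _ _ _ rfl
        · rw [Iface.cv I (by decide) (by decide) (by decide) (by decide)]
          exact k1 _ _ _ _ h2
        · exact q1 _ (as_bdd _) rfl)
      rwa [Iface.cv I (by decide) (by decide) (by decide) (by decide)] at this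
  have := r2 (as [(Nat.unpair a).1, y, (Nat.unpair a).2, c, d, a]) (as_bdd _) (by
    intro α hα
    simp only [List.mem_cons, List.not_mem_nil, or_false] at hα
    rcases hα with rfl | rfl
    · rw [Iface.cv I (by decide) (by decide) (by decide) (by decide)]
      exact key _ _ _ _ hR
    · rw [Iface.cv I (by decide) (by decide) (by decide) (by decide)]
      exact k2 _ _ _ _ (Nat.pair_unpair a).symm)
  rwa [Iface.cv I (by decide) (by decide) (by decide) (by decide)] at this

/-! ### Search -/

/-- All earlier values are positive. -/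
def Ps (F : ℕ → ℕ → Prop) (a n : ℕ) : Prop := ∀ m < n, ∃ y, F (Nat.pair a m) (y + 1)

lemma d4_ps {F : ℕ → ℕ → Prop} (hF : D4 fun a b _ _ => F a b) : D4 fun a n _ _ => Ps F a n := by
  have key := ((Dfn.le (.succ (x 4)) (x 1)).imp ((((d4_pa.app (x 0) (x 4) (x 6) .zero).and
    (hF.app (x 6) (.succ (x 5)) .zero .zero)).ex 6).ex 5)).all 4
  refine key.congr fun e => ?_
  simp (disch := decide) only [Tm.val, update_self, update_of_ne, PaR, Ps]
  refine forall_congr' fun m => imp_congr Iff.rfl (exists_congr fun y => ?_)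
  constructor
  · rintro ⟨z, rfl, h⟩; exact h
  · intro h; exact ⟨_, rfl, h⟩

lemma rep_rfind {F : ℕ → ℕ → Prop} (hF : Rep2 F) :
    Rep2 fun a n => F (Nat.pair a n) 0 ∧ Ps F a n := by
  have hd1 := d4_ps hF.1
  have hd : D4 (fun a n _ _ => F (Nat.pair a n) 0 ∧ Ps F a n) := by
    refine ((((d4_pa.app (x 0) (x 1) (x 4) .zero).and (hF.1.app (x 4) .zero .zero .zero)).ex
      4).and hd1).congr fun e => ?_
    simp (disch := decide) only [Tm.val, update_self, update_of_ne, PaR]
    refine and_congr ?_ Iff.rfl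
    constructor
    · rintro ⟨z, rfl, h⟩; exact h
    · intro h; exact ⟨_, rfl, h⟩
  obtain ⟨I⟩ := fam_iface [fun a b _ _ => F a b, PaR, fun a n _ _ => Ps F a n,
      fun a n _ _ => F (Nat.pair a n) 0 ∧ Ps F a n] (by
    simp only [List.mem_cons, List.not_mem_nil, or_false]
    rintro R (rfl | rfl | rfl | rfl)
    · exact hF.1
    · exact d4_pa
    · exact hd1
    · exact hd)
  have k0 : Kn I 0 := RepR.kn I hF
  have k1 : Kn I 1 := RepR.kn I rep_pa
  have r0 := hornP [eq (x 1) .zero] (I.V 2 0 1 3 4) (fun e h => by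
    have h1 : e 1 = 0 := h _ List.mem_cons_self
    rw [Iface.sv I (by decide) (by decide) (by decide) (by decide)]
    show Ps F (e 0) (e 1)
    rw [h1]; exact fun m hm => by omega)
  have r1 := hornP [I.V 2 0 1 3 4, I.V 1 0 1 2 3, I.V 0 2 5 3 4, eq (x 5) (.succ (x 6)),
      eq (x 8) (.succ (x 1))] (I.V 2 0 8 3 4) (fun e h => by
    have h0 := (Iface.sv I (by decide) (by decide) (by decide) (by decide) e).mp
      (h _ List.mem_cons_self)
    have h1 := (Iface.sv I (by decide) (by decide) (by decide) (by decide) e).mp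
      (h _ (List.mem_cons_of_mem _ List.mem_cons_self))
    have h2 := (Iface.sv I (by decide) (by decide) (by decide) (by decide) e).mp
      (h _ (List.mem_cons_of_mem _ (List.mem_cons_of_mem _ List.mem_cons_self)))
    have h3 : e 5 = e 6 + 1 := h _ (List.mem_cons_of_mem _ (List.mem_cons_of_mem _
      (List.mem_cons_of_mem _ List.mem_cons_self)))
    have h4 : e 8 = e 1 + 1 := h _ (List.mem_cons_of_mem _ (List.mem_cons_of_mem _
      (List.mem_cons_of_mem _ (List.mem_cons_of_mem _ List.mem_cons_self))))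
    have h0' : Ps F (e 0) (e 1) := h0
    have h1' : e 2 = Nat.pair (e 0) (e 1) := h1
    have h2' : F (e 2) (e 5) := h2
    rw [Iface.sv I (by decide) (by decide) (by decide) (by decide)]
    show Ps F (e 0) (e 8)
    rw [h4]
    intro m hm
    rcases Nat.lt_succ_iff_lt_or_eq.mp hm with hm | rfl
    · exact h0' m hm
    · exact ⟨e 6, by rw [← h1', ← h3]; exact h2'⟩)
  have r2 := hornP [I.V 2 0 1 3 4, I.V 1 0 1 2 3, I.V 0 2 5 3 4, eq (x 5) .zero]
      (I.V 3 0 1 3 4) (fun e h => by
    have h0 := (Iface.sv I (by decide) (by decide) (by decide) (by decide) e).mp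
      (h _ List.mem_cons_self)
    have h1 := (Iface.sv I (by decide) (by decide) (by decide) (by decide) e).mp
      (h _ (List.mem_cons_of_mem _ List.mem_cons_self))
    have h2 := (Iface.sv I (by decide) (by decide) (by decide) (by decide) e).mp
      (h _ (List.mem_cons_of_mem _ (List.mem_cons_of_mem _ List.mem_cons_self)))
    have h3 : e 5 = 0 := h _ (List.mem_cons_of_mem _ (List.mem_cons_of_mem _
      (List.mem_cons_of_mem _ List.mem_cons_self)))
    have h1' : e 2 = Nat.pair (e 0) (e 1) := h1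
    have h2' : F (e 2) (e 5) := h2
    rw [Iface.sv I (by decide) (by decide) (by decide) (by decide)]
    refine ⟨?_, h0⟩
    rw [← h1', ← h3]
    exact h2')
  refine Kn.rep (I := I) (j := 3) ?_ hd
  filter_upwards [k0, k1, r0, r1, r2, X81.eqP (x 1) .zero, X81.eqP (x 5) .zero,
    X81.eqP (x 5) (.succ (x 6)), X81.eqP (x 8) (.succ (x 1))] with B
    k0 k1 r0 r1 r2 q0 q1 q2 q3 a n c d hR
  have key : ∀ a n c d, Ps F a n → Pv B (I.A 2 (nT a) (nT n) (nT c) (nT d)) := by
    intro a n
    induction n with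
    | zero =>
      intro c d h
      have := r0 (as [a, 0, 0, c, d]) (as_bdd _) (by
        intro α hα
        simp only [List.mem_cons, List.not_mem_nil, or_false] at hα
        subst hα
        exact q0 _ (as_bdd _) rfl)
      rwa [Iface.cv I (by decide) (by decide) (by decide) (by decide)] at this
    | succ n ih =>
      intro c d h
      obtain ⟨y, hy⟩ := h n (Nat.lt_succ_self n)
      have := r1 (as [a, n, Nat.pair a n, c, d, y + 1, y, 0, n + 1]) (as_bdd _) (by
        intro α hα
        simp only [List.mem_cons, List.not_mem_nil, or_false] at hα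
        rcases hα with rfl | rfl | rfl | rfl | rfl
        · rw [Iface.cv I (by decide) (by decide) (by decide) (by decide)]
          exact ih c d fun m hm => h m (by omega)
        · rw [Iface.cv I (by decide) (by decide) (by decide) (by decide)]
          exact k1 _ _ _ _ rfl
        · rw [Iface.cv I (by decide) (by decide) (by decide) (by decide)]
          exact k0 _ _ _ _ hy
        · exact q2 _ (as_bdd _) rfl
        · exact q3 _ (as_bdd _) rfl)
      rwa [Iface.cv I (by decide) (by decide) (by decide) (by decide)] at this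
  have := r2 (as [a, n, Nat.pair a n, c, d, 0]) (as_bdd _) (by
    intro α hα
    simp only [List.mem_cons, List.not_mem_nil, or_false] at hα
    rcases hα with rfl | rfl | rfl | rfl
    · rw [Iface.cv I (by decide) (by decide) (by decide) (by decide)]
      exact key _ _ _ _ hR.2
    · rw [Iface.cv I (by decide) (by decide) (by decide) (by decide)]
      exact k1 _ _ _ _ rfl
    · rw [Iface.cv I (by decide) (by decide) (by decide) (by decide)]
      exact k0 _ _ _ _ hR.1
    · exact q1 _ (as_bdd _) rfl)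
  rwa [Iface.cv I (by decide) (by decide) (by decide) (by decide)] at this

/-! ### All partial recursive functions -/

theorem rep_partrec {f : ℕ →. ℕ} (hf : Nat.Partrec f) : Rep2 fun a b => b ∈ f a := by
  induction hf with
  | zero => exact rep_zero.congr fun a b => by simp [pure, PFun.pure, Part.mem_some_iff]
  | succ => exact rep_succ.congr fun a b => by simp [Part.mem_some_iff]
  | left => exact rep_left.congr fun a b => by simp [Part.mem_some_iff]
  | right => exact rep_right.congr fun a b => by simp [Part.mem_some_iff]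
  | pair _ _ ihf ihg =>
    refine (rep_pair ihf ihg).congr fun a b => ?_
    simp only [Seq.seq, Part.mem_bind_iff, Part.map_eq_map, Part.mem_map_iff]
    constructor
    · rintro ⟨u, v, h1, h2, rfl⟩
      exact ⟨_, ⟨u, h1, rfl⟩, v, h2, rfl⟩
    · rintro ⟨_, ⟨u, h1, rfl⟩, v, h2, rfl⟩
      exact ⟨u, v, h1, h2, rfl⟩
  | comp _ _ ihf ihg =>
    rename_i f g _ _
    refine (rep_comp ihf ihg).congr fun a b => ?_
    exact (Part.mem_bind_iff (f := g a) (g := f)).symm
  | prec _ _ ihf ihg =>
    rename_i f g _ _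
    refine (rep_prec ihf ihg).congr fun a y => ?_
    have key : ∀ a n y, PR (fun a b => b ∈ f a) (fun a b => b ∈ g a) a n y ↔
        y ∈ (n.rec (f a) fun y IH => do let i ← IH; g (Nat.pair a (Nat.pair y i)) : Part ℕ) := by
      intro a n
      induction n with
      | zero => intro y; exact Iff.rfl
      | succ n ih =>
        intro y
        show (∃ i, PR _ _ a n i ∧ y ∈ g (Nat.pair a (Nat.pair n i))) ↔ _
        simp only [Part.bind_eq_bind, Part.mem_bind_iff, ih]
    exact key _ _ y
  | rfind _ ihf =>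
    rename_i f _
    refine (rep_rfind ihf).congr fun a n => ?_
    refine Iff.trans ?_ (Nat.mem_rfind (p := fun n => Part.map (fun m => decide (m = 0))
      (f (Nat.pair a n)))).symm
    refine and_congr ?_ ?_
    · constructor
      · intro h; exact (Part.mem_map_iff _).mpr ⟨0, h, by simp⟩
      · intro h
        obtain ⟨m, h1, h2⟩ := (Part.mem_map_iff _).mp h
        have h3 : m = 0 := by simpa using h2
        rwa [h3] at h1
    · constructor
      · intro h m hm
        obtain ⟨y, hy⟩ := h m hm
        exact (Part.mem_map_iff _).mpr ⟨y + 1, hy, by simp⟩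
      · intro h m hm
        obtain ⟨y, hy, h0⟩ := (Part.mem_map_iff _).mp (h hm)
        have h3 : y ≠ 0 := by simpa using h0
        exact ⟨y - 1, by rwa [Nat.sub_add_cancel (by omega)]⟩

/-- Computable functions are represented. -/
theorem rep_computable {f : ℕ → ℕ} (hf : Computable f) : Rep2 fun a b => b = f a :=
  (rep_partrec (Partrec.nat_iff.mp hf)).congr fun a b => by simp [Part.mem_some_iff]

end Helper31Con.H40
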