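import Pool.Agent.Helper40_H.Final

/-!
# Equivalent forms of the negative answer above some base
-/

namespace Helper31Con.H40

open Function Filter Fm Amp H5

/-- For some finite set `B` of true sentences no consistent finite `X` that proves `B` has
polynomial proofs of `Con_{B + Con_X}(n)`. -/
def NegX (con : Fm) : Prop := ∃ B : List Fm, (∀ φ ∈ B, TrueS φ) ∧
  ∀ X : List Fm, (∀ φ ∈ X, Sentence φ) → (∀ k, ¬ Prov X k .bot) → (∀ φ ∈ B, ∃ k, Prov X k φ) →
    ¬ Short con X (conS con X :: B)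

/-- Polynomial proofs of the finite consistency of a theory from those of a stronger one. -/
lemma short_down {con : Fm} (hcon : IsCon con) : ∃ B₁ : List Fm, (∀ φ ∈ B₁, TrueS φ) ∧
    (∀ φ ∈ Q, φ ∈ B₁) ∧ ∀ A T S : List Fm, (∀ φ ∈ B₁, ∃ k, Prov A k φ) →
      (∀ φ ∈ T, Sentence φ) → (∀ φ ∈ S, Sentence φ) → (∀ φ ∈ S, ∃ k, Prov T k φ) →
      Short con A T → Short con A S := by
  obtain ⟨I⟩ := exists_ifaceA (θ := bot) hcon (fun k hk => absurd hk (fun h => h))
  obtain ⟨Bd, hBd, hdown⟩ := down I hcon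
  obtain ⟨cA, hatom⟩ := atom_fact I hcon
  obtain ⟨Bx, hBx, hfx⟩ := rich_iff.mp hatom
  obtain ⟨B₁, hB₁⟩ : ∃ B₁, B₁ = Q ++ (Bd ++ Bx) := ⟨_, rfl⟩
  have m1 : ∀ φ ∈ Q, φ ∈ B₁ := fun φ hφ => by rw [hB₁]; simp [hφ]
  have m4 : ∀ φ ∈ Bd, φ ∈ B₁ := fun φ hφ => by rw [hB₁]; simp [hφ]
  have m5 : ∀ φ ∈ Bx, φ ∈ B₁ := fun φ hφ => by rw [hB₁]; simp [hφ]
  have hB₁t : ∀ φ ∈ B₁, TrueS φ := by
    intro φ hφ
    rw [hB₁] at hφ
    simp only [List.mem_append] at hφ
    rcases hφ with h | h | h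
    · exact Q_true φ h
    · exact hBd φ h
    · exact hBx φ h
  refine ⟨B₁, hB₁t, m1, fun A T S hAB hT hS hTS hs => ?_⟩
  obtain ⟨c', hc'⟩ := hs
  obtain ⟨L, hL1, hL2⟩ := exists_list (T := T) (Ps := S) hTS
  have hBA : ∀ φ ∈ B₁, φ ∈ B₁ ++ A := fun φ hφ => List.mem_append_left _ hφ
  have hat := hfx (B₁ ++ A) fun φ hφ => hBA φ (m5 φ hφ)
  obtain ⟨c, hc⟩ := hdown (B₁ ++ A) A T S L (fun β hβ => hBA β (m4 β hβ)) hT hS hL1
    (isProof_of_subset hL2) (fun u => u + cA * (u + lc T + 1) + cA)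
    (((PB.id.add ((PB.const cA).mul ((PB.id.add (PB.const _)).add (PB.const 1)))).add
      (PB.const cA))) (fun m k hk => by
      have hk' : Prov (B₁ ++ A) k (conN con T m) := by
        obtain ⟨L, h1, h2⟩ := hk
        exact ⟨L, h1.mono fun φ hφ => List.mem_append_right _ hφ, h2⟩
      have h2 : cA * (m + lc T + 1) ≤ cA * (m + k + lc T + 1) :=
        Nat.mul_le_mul_left _ (by omega)
      exact (hat T m k hk').mono (by omega) (by omega))
  obtain ⟨C, hC⟩ := prov_cut_const (T := A) (Ps := B₁) hAB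
  have hP : PB (fun n => (n + ((n + c) ^ c' + c') + c) ^ c + C) :=
    (PB.pow ((PB.id.add ((PB.pow (PB.id.add (PB.const c)) c').add (PB.const c'))).add
      (PB.const c)) c).add (PB.const C)
  exact Short.of_le hP fun n => hC _ _ (hc n _ (hc' (n + c)))

theorem negX_iff {con : Fm} (hcon : IsCon con) : NegC con ↔ NegX con := by
  obtain ⟨B₁, h1, -, h2⟩ := nf hcon
  obtain ⟨B₂, h3, -, h4⟩ := short_down hcon
  constructor
  · rintro ⟨B, hB, h⟩
    refine ⟨B ++ B₁, fun φ hφ => ?_, fun X hX hXc hXB hs => ?_⟩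
    · rcases List.mem_append.mp hφ with h' | h'
      · exact hB φ h'
      · exact h1 φ h'
    · obtain ⟨A, a1, a2, a3, a4⟩ := (h2 (B ++ B₁) (fun φ hφ => by
        rcases List.mem_append.mp hφ with h' | h'
        · exact hB φ h'
        · exact h1 φ h') fun φ hφ => List.mem_append_right _ hφ).2.mpr ⟨X, hX, hXc, hXB, hs⟩
      exact h A a1 a2 (fun φ hφ => a3 φ (List.mem_append_left _ hφ)) a4
  · rintro ⟨B, hB, h⟩
    obtain ⟨B', hB'⟩ : ∃ B', B' = B ++ (B₁ ++ B₂) := ⟨_, rfl⟩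
    have n0 : ∀ φ ∈ B, φ ∈ B' := fun φ hφ => by rw [hB']; simp [hφ]
    have n1 : ∀ φ ∈ B₁, φ ∈ B' := fun φ hφ => by rw [hB']; simp [hφ]
    have n2 : ∀ φ ∈ B₂, φ ∈ B' := fun φ hφ => by rw [hB']; simp [hφ]
    have nt : ∀ φ ∈ B', TrueS φ := by
      intro φ hφ
      rw [hB'] at hφ
      simp only [List.mem_append] at hφ
      rcases hφ with h | h | h
      · exact hB φ h
      · exact h1 φ h
      · exact h3 φ h
    refine ⟨B', nt, fun A hA hAc hAB hs => ?_⟩
    obtain ⟨X, x1, x2, x3, x4⟩ := (h2 B' nt n1).2.mp ⟨A, hA, hAc, hAB, hs⟩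
    refine h X x1 x2 (fun φ hφ => x3 φ (n0 φ hφ)) ?_
    refine h4 X (conS con X :: B') (conS con X :: B) (fun φ hφ => x3 φ (n2 φ hφ)) ?_ ?_ ?_ x4
    · intro φ hφ
      rcases List.mem_cons.mp hφ with rfl | hφ
      · exact hcon.conS_sentence X
      · exact (nt φ hφ).1
    · intro φ hφ
      rcases List.mem_cons.mp hφ with rfl | hφ
      · exact hcon.conS_sentence X
      · exact (hB φ hφ).1
    · intro φ hφ
      rcases List.mem_cons.mp hφ with rfl | hφ
      · exact pv_iff.mp (Pv.mem List.mem_cons_self)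
      · exact pv_iff.mp (Pv.mem (List.mem_cons_of_mem _ (n0 φ hφ)))

/-- The five statements are equivalent. -/
theorem tfae {con : Fm} (hcon : IsCon con) :
    List.TFAE [NegC con, NegT con, NegX con, NegR con, NegF con] := by
  obtain ⟨e1, e2, e3⟩ := equiv hcon (pscStmt hcon)
  refine List.tfae_of_forall (NegC con) _ ?_
  simp only [List.mem_cons, List.not_mem_nil, or_false, forall_eq_or_imp, forall_eq]
  exact ⟨trivial, e1.symm, (negX_iff hcon).symm, e2.symm, e3.symm⟩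

end Helper31Con.H40
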